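import Pool.Agent.Lib.MP_1755e3_an.Full.Cases
import Pool.Agent.Lib.MP_1755e3_an.Full.Exact

set_option autoImplicit false

/-!
# Vertically rigid functions which are measurable, or have the property of Baire

Let `f : ℝ → ℝ` be vertically rigid.  If `f` is Lebesgue measurable, then `f` is exactly one of the
nonconstant functions `a + b x`, `a + b exp (k x)` on the whole line, or `f` is constant almost
everywhere.  If `f` has the property of Baire, then `f` is one of these nonconstant functions, or
`f` is constant on a comeagre set.  If `f` is Borel, then in the second case one constant serves both senses.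

Idea of the proof.  For every `c > 0` the affine map `isometry ∘ diag (1, c)` preserves the graph.
These maps generate an uncountable group, and one shows that the group contains uncountably many
vertical scalings, or translations, or homotheties.  In each case a dense set of translations of
the line (after taking logarithms in the case of homotheties) changes a measurable function by
constants, and an ergodicity argument (Steinhaus, resp. Pettis) determines `f` almost everywhere.
Finally an exceptional point of a nonconstant `f` is transported by the maps of the group to a set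
of exceptional points which is not small.
-/

open MeasureTheory Filter

namespace Pool.Agent.Results.MP_1755e3_an.MeasurableRigid

open Pool.Agent.Lib.MP_1755e3_an Pool.Agent.Lib.MP_1755e3_an.Full

/-- The trichotomy for a common generalisation of the two filters. -/
theorem trichotomy {𝓕 : Filter ℝ} (hF : Nice2 𝓕) {f : ℝ → ℝ} (hf : EM 𝓕 f)
    (hrig : VerticallyRigid f) :
    (∃ a b : ℝ, b ≠ 0 ∧ ∀ x, f x = a + b * x) ∨
      (∃ a b k : ℝ, b ≠ 0 ∧ k ≠ 0 ∧ ∀ x, f x = a + b * Real.exp (k * x)) ∨
      (∃ a : ℝ, ∀ᶠ x in 𝓕, f x = a) := by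
  obtain ⟨a, b, k, h | h⟩ := main hF.toNice hf hrig
  · by_cases hb : b = 0
    · refine Or.inr (Or.inr ⟨a, ?_⟩)
      filter_upwards [h] with x hx
      rw [hx, hb]
      ring
    · exact Or.inl ⟨a, b, hb, hF.affine_exact hrig hb h⟩
  · by_cases hb : b = 0
    · refine Or.inr (Or.inr ⟨a, ?_⟩)
      filter_upwards [h] with x hx
      rw [hx, hb]
      ring
    · by_cases hk : k = 0
      · refine Or.inr (Or.inr ⟨a + b, ?_⟩)
        filter_upwards [h] with x hx
        rw [hx, hk, zero_mul, Real.exp_zero]
        ring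
      · exact Or.inr (Or.inl ⟨a, b, k, hb, hk, hF.exp_exact hrig hb hk h⟩)

/-- Let `f : ℝ → ℝ` be vertically rigid: for every `c > 0` an isometry of the Euclidean plane maps
the graph of `c f` onto the graph of `f`.

* If `f` is Lebesgue measurable, then `f` is equal to a nonconstant function `a + b x` or
  `a + b exp (k x)` everywhere, or `f` is constant almost everywhere.
* If `f` has the property of Baire, then `f` is equal to a nonconstant function `a + b x` or
  `a + b exp (k x)` everywhere, or `f` is constant on a comeagre set.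
* If `f` is Borel, then `f` is equal to a nonconstant function `a + b x` or `a + b exp (k x)`
  everywhere, or there is one `a` with `f = a` both almost everywhere and on a comeagre set. -/
theorem result (f : ℝ → ℝ)
    (hrig : ∀ c : ℝ, 0 < c → ∃ φ : EuclideanSpace ℝ (Fin 2) ≃ᵢ EuclideanSpace ℝ (Fin 2),
      φ '' Set.range (fun x : ℝ => (WithLp.toLp 2 ![x, c * f x] : EuclideanSpace ℝ (Fin 2)))
        = Set.range (fun x : ℝ => (WithLp.toLp 2 ![x, f x] : EuclideanSpace ℝ (Fin 2)))) :
    ((∀ U : Set ℝ, IsOpen U → NullMeasurableSet (f ⁻¹' U) volume) →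
      (∃ a b : ℝ, b ≠ 0 ∧ ∀ x, f x = a + b * x) ∨
      (∃ a b k : ℝ, b ≠ 0 ∧ k ≠ 0 ∧ ∀ x, f x = a + b * Real.exp (k * x)) ∨
      (∃ a : ℝ, ∀ᵐ x ∂volume, f x = a)) ∧
    ((∀ U : Set ℝ, IsOpen U → BaireMeasurableSet (f ⁻¹' U)) →
      (∃ a b : ℝ, b ≠ 0 ∧ ∀ x, f x = a + b * x) ∨
      (∃ a b k : ℝ, b ≠ 0 ∧ k ≠ 0 ∧ ∀ x, f x = a + b * Real.exp (k * x)) ∨
      (∃ a : ℝ, ∀ᶠ x in residual ℝ, f x = a)) ∧
    (Measurable f →
      (∃ a b : ℝ, b ≠ 0 ∧ ∀ x, f x = a + b * x) ∨
      (∃ a b k : ℝ, b ≠ 0 ∧ k ≠ 0 ∧ ∀ x, f x = a + b * Real.exp (k * x)) ∨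
      (∃ a : ℝ, (∀ᵐ x ∂volume, f x = a) ∧ ∀ᶠ x in residual ℝ, f x = a)) := by
  refine ⟨fun hf => ?_, fun hf => ?_, fun hf => ?_⟩
  · exact trichotomy nice2_ae (nice2_ae.em_of_open fun U hU => hf U hU) hrig
  · exact trichotomy nice2_residual (nice2_residual.em_of_open fun U hU => hf U hU) hrig
  · rcases trichotomy nice2_ae (nice2_ae.em_measurable hf) hrig with h | h | ⟨a, ha⟩
    · exact Or.inl h
    · exact Or.inr (Or.inl h)
    rcases trichotomy nice2_residual (nice2_residual.em_measurable hf) hrig with h | h | ⟨a', ha'⟩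
    · exact Or.inl h
    · exact Or.inr (Or.inl h)
    refine Or.inr (Or.inr ⟨a, ha, ?_⟩)
    obtain ⟨p, q, t₁, t₂, σ, hP⟩ := exists_par hrig (c := 2) two_pos
    obtain ⟨hq, h1⟩ := nice2_ae.constant ha hP
    obtain ⟨-, h2⟩ := nice2_residual.constant ha' hP
    have hp : p ^ 2 = 1 := by
      have := hP.1
      rw [hq] at this
      linarith
    have h3 : a' = a := by
      have hσ := hP.2.1
      have h4 : (σ * p) ^ 2 = 1 := by
        rw [mul_pow, hσ, hp, one_mul]
      rcases sq_eq_one_iff.1 h4 with h5 | h5 <;> rw [h5] at h1 h2 <;> linarith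
    rw [← h3]
    exact ha'

end Pool.Agent.Results.MP_1755e3_an.MeasurableRigid
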