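import Pool.Agent.Lib.MP_1755e3_an.Main

set_option autoImplicit false

/-!
# Vertically rigid functions with a little regularity

For a vertically rigid function `f : ℝ → ℝ` the following are equivalent: `f` has one of the forms
`a + b x`, `a + b exp (k x)` everywhere; `f` has a point of continuity; `f` is of Baire class one;
`f` is bounded on some nonempty open interval.

Idea of the proof. The closure `K` of the graph is mapped onto itself by the affine maps
`isometry ∘ diag (1, c)` for every `c > 0`.  As there are uncountably many of these, the closed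
semigroup of affine maps preserving `K` contains a one-parameter group of a special form.  If the
fibre of `K` over some point is bounded, this forces `K` either to have at most linear growth (and
then `K` is a line, by a renormalisation argument with a small `c`), or to be trapped between
multiples of an exponential, or to be invariant under vertical scalings.
-/

open Set Filter Topology

namespace Pool.Agent.Results.MP_1755e3_an.RigidRegular

open Pool.Agent.Lib.MP_1755e3_an

/-- A pointwise limit of continuous functions is bounded on some nonempty open interval. -/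
theorem bounded_of_baire_one {f : ℝ → ℝ} {F : ℕ → ℝ → ℝ} (hF : ∀ n, Continuous (F n))
    (hlim : ∀ x, Tendsto (fun n => F n x) atTop (𝓝 (f x))) :
    ∃ u v B : ℝ, u < v ∧ ∀ x ∈ Ioo u v, |f x| ≤ B := by
  let E : ℕ → Set ℝ := fun N => {x | ∀ n, |F n x| ≤ N}
  have hE : ∀ N, IsClosed (E N) := by
    intro N
    have : E N = ⋂ n, {x | |F n x| ≤ N} := by
      ext x
      simp only [E, mem_iInter]
      rfl
    rw [this]
    exact isClosed_iInter fun n => isClosed_le (continuous_abs.comp (hF n)) continuous_const
  have hU : ⋃ N, E N = univ := by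
    refine eq_univ_of_forall fun x => mem_iUnion.2 ?_
    obtain ⟨C, hC⟩ := (hlim x).abs.bddAbove_range
    obtain ⟨N, hN⟩ := exists_nat_ge C
    exact ⟨N, fun n => (hC ⟨n, rfl⟩).trans hN⟩
  obtain ⟨N, hN⟩ := nonempty_interior_of_iUnion_of_closed hE hU
  obtain ⟨x, hx⟩ := hN
  obtain ⟨r, hr, hball⟩ := Metric.mem_nhds_iff.1 (mem_interior_iff_mem_nhds.1 hx)
  refine ⟨x - r, x + r, N, by linarith, fun y hy => ?_⟩
  have hyE : y ∈ E N := hball (by rw [Real.ball_eq_Ioo]; exact hy)
  exact le_of_tendsto' (hlim y).abs hyE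

/-- For a vertically rigid `f` the following are equivalent: `f` is `a + b x` or `a + b exp (k x)`
everywhere; `f` is continuous at some point; `f` is of Baire class one; `f` is bounded on some
nonempty open interval. -/
theorem result (f : ℝ → ℝ)
    (hf : ∀ c : ℝ, 0 < c → ∃ φ : EuclideanSpace ℝ (Fin 2) ≃ᵢ EuclideanSpace ℝ (Fin 2),
      φ '' Set.range (fun x : ℝ => (WithLp.toLp 2 ![x, c * f x] : EuclideanSpace ℝ (Fin 2)))
        = Set.range (fun x : ℝ => (WithLp.toLp 2 ![x, f x] : EuclideanSpace ℝ (Fin 2)))) :
    List.TFAE [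
      ∃ a b k : ℝ, (∀ x, f x = a + b * x) ∨ (∀ x, f x = a + b * Real.exp (k * x)),
      ∃ x₀ : ℝ, ContinuousAt f x₀,
      ∃ F : ℕ → ℝ → ℝ, (∀ n, Continuous (F n)) ∧
        ∀ x, Tendsto (fun n => F n x) atTop (𝓝 (f x)),
      ∃ u v B : ℝ, u < v ∧ ∀ x ∈ Ioo u v, |f x| ≤ B] := by
  have hcont : (∃ a b k : ℝ, (∀ x, f x = a + b * x) ∨ (∀ x, f x = a + b * Real.exp (k * x))) →
      Continuous f := by
    rintro ⟨a, b, k, h | h⟩
    · rw [show f = fun x => a + b * x from funext h]
      fun_prop
    · rw [show f = fun x => a + b * Real.exp (k * x) from funext h]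
      fun_prop
  tfae_have 1 → 2 := fun h => ⟨0, (hcont h).continuousAt⟩
  tfae_have 1 → 3 := fun h => ⟨fun _ => f, fun _ => hcont h, fun _ => tendsto_const_nhds⟩
  tfae_have 2 → 4 := by
    rintro ⟨x₀, hx₀⟩
    have h1 : ∀ᶠ x in 𝓝 x₀, |f x| < |f x₀| + 1 :=
      hx₀.abs.eventually_lt_const (by linarith)
    obtain ⟨r, hr, hball⟩ := Metric.mem_nhds_iff.1 h1
    refine ⟨x₀ - r, x₀ + r, |f x₀| + 1, by linarith, fun y hy => ?_⟩
    have hy' : y ∈ Metric.ball x₀ r := by rw [Real.ball_eq_Ioo]; exact hy
    have h2 : |f y| < |f x₀| + 1 := hball hy'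
    exact h2.le
  tfae_have 3 → 4 := by
    rintro ⟨F, hF, hlim⟩
    exact bounded_of_baire_one hF hlim
  tfae_have 4 → 1 := by
    rintro ⟨u, v, B, huv, hB⟩
    exact rigid_of_bounded hf huv hB
  tfae_finish

end Pool.Agent.Results.MP_1755e3_an.RigidRegular
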